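import Pool.Agent.TH943.LP.Glob

/-!
The orders of vanishing for the Jacobian of `D(t) y ^ 2 = (x - h(t)) f(x)` and its constant twist.
-/

set_option autoImplicit false
set_option maxHeartbeats 1000000

open PowerSeries

namespace Pool.Agent.TH943.LP

open Pool.Agent.W313.Hyp Pool.Agent.W343.BSD Pool.Agent.TH943.HJ

section ismu

/-- The power series is a polynomial, not zero, with multiplicity `n` of the root one. -/
def IsMu (p : PowerSeries (ZMod 2)) (n : ℕ) : Prop :=
  ∃ P : Polynomial (ZMod 2), (P : PowerSeries (ZMod 2)) = p ∧ P ≠ 0 ∧ mu P = n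

theorem IsMu.one : IsMu 1 0 := by
  refine ⟨1, Polynomial.coe_one, one_ne_zero, ?_⟩
  have := mu_mul (one_ne_zero : (1 : Polynomial (ZMod 2)) ≠ 0) one_ne_zero
  rw [mul_one] at this
  omega

theorem IsMu.zf {n : ℕ} (hn : 0 < n) : IsMu (1 + X ^ n) (twoPart n) :=
  ⟨1 + Polynomial.X ^ n, coe_zf' n, one_add_ne hn, mu_one_add hn⟩

theorem IsMu.oneX : IsMu (1 + X) 1 := ⟨1 + Polynomial.X, coe_one_X, one_add_X_ne, mu_one_add_X⟩

theorem IsMu.mul {p q : PowerSeries (ZMod 2)} {m n : ℕ} (hp : IsMu p m) (hq : IsMu q n) :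
    IsMu (p * q) (m + n) := by
  obtain ⟨P, rfl, hP, rfl⟩ := hp
  obtain ⟨Q, rfl, hQ, rfl⟩ := hq
  exact ⟨P * Q, Polynomial.coe_mul P Q, mul_ne_zero hP hQ, mu_mul hP hQ⟩

theorem IsMu.pow {p : PowerSeries (ZMod 2)} {m : ℕ} (hp : IsMu p m) (n : ℕ) :
    IsMu (p ^ n) (n * m) := by
  induction n with
  | zero => rw [pow_zero, Nat.zero_mul]; exact IsMu.one
  | succ n ih => rw [pow_succ, Nat.succ_mul]; exact ih.mul hp

theorem IsMu.prod {ι : Type*} (s : Finset ι) {p : ι → PowerSeries (ZMod 2)} {m : ι → ℕ}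
    (h : ∀ i ∈ s, IsMu (p i) (m i)) : IsMu (∏ i ∈ s, p i) (∑ i ∈ s, m i) := by
  classical
  induction s using Finset.induction_on with
  | empty => exact IsMu.one
  | insert i s hi ih =>
    rw [Finset.prod_insert hi, Finset.sum_insert hi]
    exact (h i (Finset.mem_insert_self i s)).mul
      (ih fun j hj => h j (Finset.mem_insert_of_mem hj))

/-- the comparison of the multiplicities -/
theorem le_of_isMu {q : ℤ} (hq : ((q : ℤ) : ZMod 2) = 1) {L : PowerSeries ℤ} {a b : ℕ}
    {G : Polynomial ℤ}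
    (hG : L = (((1 - Polynomial.C q * Polynomial.X) ^ a *
        (1 + Polynomial.C q * Polynomial.X) ^ b * G : Polynomial ℤ) : PowerSeries ℤ))
    {A B : PowerSeries (ZMod 2)} {m n : ℕ} (hA : IsMu A m) (hB : IsMu B n)
    (h : red2 L * A = B) : a + b + m ≤ n := by
  obtain ⟨P, rfl, hP, rfl⟩ := hA
  obtain ⟨Q, rfl, hQ, rfl⟩ := hB
  set GG : Polynomial (ZMod 2) := G.map (Int.castRingHom (ZMod 2)) with hGG
  have hred : red2 L =
      (((1 + Polynomial.X) ^ (a + b) * GG : Polynomial (ZMod 2)) : PowerSeries (ZMod 2)) := by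
    rw [hG, red2_poly]
    congr 1
    rw [Polynomial.map_mul, Polynomial.map_mul, Polynomial.map_pow, Polynomial.map_pow,
      Polynomial.map_sub, Polynomial.map_add, Polynomial.map_one,
      Polynomial.map_mul, Polynomial.map_C, Polynomial.map_X]
    have h3 : (Int.castRingHom (ZMod 2)) q = 1 := by
      rw [eq_intCast, hq]
    rw [h3, map_one, one_mul, CharTwo.sub_eq_add, ← pow_add]
  have hpoly : (1 + Polynomial.X) ^ (a + b) * GG * P = Q := by
    apply coe_inj2
    rw [Polynomial.coe_mul _ P, ← hred]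
    exact h
  have hL0 : (1 + Polynomial.X) ^ (a + b) * GG ≠ 0 := by
    intro h
    rw [h, zero_mul] at hpoly
    exact hQ hpoly.symm
  have hmu := congrArg mu hpoly
  rw [mu_mul hL0 hP, mu_mul (left_ne_zero_of_mul hL0) (right_ne_zero_of_mul hL0),
    mu_pow one_add_X_ne, mu_one_add_X, mul_one] at hmu
  omega

end ismu

section

variable {k : Type} [Field k]

open Classical in
/-- The factors of the points at infinity of the fibres. -/
noncomputable def infX (f D : Polynomial k) : PowerSeries ℤ :=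
  if Odd f.natDegree then locA D 1 else 1

open Classical in
/-- The Euler factor at `t = ∞`. -/
noncomputable def infT (f h D : Polynomial k) : PowerSeries ℤ :=
  if Even (h.natDegree + D.natDegree) then
    locA (Polynomial.C (-(h.leadingCoeff * D.leadingCoeff)) * f) 1 else 1

/-- the `L`-function -/
noncomputable def LL (f h D : Polynomial k) : PowerSeries ℤ := LF f h D * infX f D * infT f h D

variable [Finite k]

omit [Finite k] in
theorem isMu_Psi (f : Polynomial k) {n : ℕ} (hn : 0 < n) :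
    IsMu (Psi f n) (∑ R ∈ facs f, Nat.gcd n R.1.natDegree * twoPart (Nat.lcm n R.1.natDegree)) :=
  IsMu.prod _ fun R _ => (IsMu.zf (Nat.lcm_pos hn (MI.deg_pos R))).pow _

omit [Finite k] in
theorem isMu_facs (f : Polynomial k) :
    IsMu (∏ R ∈ facs f, (1 + X ^ R.1.natDegree)) (∑ R ∈ facs f, twoPart R.1.natDegree) :=
  IsMu.prod _ fun R _ => IsMu.zf (MI.deg_pos R)

theorem facs_unit {g : Polynomial k} {c : k} (hg : g ≠ 0) (hc : c ≠ 0) :
    facs (Polynomial.C c * g) = facs g := by
  ext P
  rw [mem_facs (mul_ne_zero (Polynomial.C_ne_zero.2 hc) hg), mem_facs hg,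
    (Polynomial.isUnit_C.2 (isUnit_iff_ne_zero.2 hc)).dvd_mul_left]

open Classical in
/-- the identity modulo two for the whole function -/
theorem identity_LL (hq : ((Nat.card k : ℕ) : ZMod 2) = 1) {f h D : Polynomial k}
    (hf : f ≠ 0) (hfh : f.comp h ≠ 0) (hh : h ≠ 0) (hD : D ≠ 0) :
    red2 (LL f h D) * ((∏ R ∈ facs f, (1 + X ^ R.1.natDegree)) *
      ((if Odd f.natDegree then ∏ P ∈ facs D, (1 + X ^ P.1.natDegree) else 1) *
      (if Even (h.natDegree + D.natDegree) then
        ∏ R ∈ facs f, (1 + X ^ R.1.natDegree) else 1))) =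
      ((∏ P ∈ facs (f.comp h) \ facs D, (1 + X ^ P.1.natDegree)) *
        ∏ P ∈ facs D, Psi f P.1.natDegree) *
      ((if Odd f.natDegree then 1 + X else 1) *
        (if Even (h.natDegree + D.natDegree) then 1 + X else 1)) := by
  have h1 := identity hq hf hfh hD
  have h2 : red2 (infX f D) *
      (if Odd f.natDegree then ∏ P ∈ facs D, (1 + X ^ P.1.natDegree) else 1) =
      if Odd f.natDegree then 1 + X else 1 := by
    unfold infX
    split_ifs with ho
    · have := locA_mod hq hD one_pos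
      simpa only [one_mul, pow_one] using this
    · rw [map_one, one_mul]
  have h3 : red2 (infT f h D) *
      (if Even (h.natDegree + D.natDegree) then
        ∏ R ∈ facs f, (1 + X ^ R.1.natDegree) else 1) =
      if Even (h.natDegree + D.natDegree) then 1 + X else 1 := by
    unfold infT
    split_ifs with ho
    · have hc : -(h.leadingCoeff * D.leadingCoeff) ≠ 0 :=
        neg_ne_zero.2 (mul_ne_zero (Polynomial.leadingCoeff_ne_zero.2 hh)
          (Polynomial.leadingCoeff_ne_zero.2 hD))
      have := locA_mod hq (h := Polynomial.C (-(h.leadingCoeff * D.leadingCoeff)) * f)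
        (mul_ne_zero (Polynomial.C_ne_zero.2 hc) hf) one_pos
      rw [facs_unit hf hc] at this
      simpa only [one_mul, pow_one] using this
    · rw [map_one, one_mul]
  unfold LL
  rw [map_mul, map_mul]
  set A := red2 (LF f h D)
  set B := red2 (infX f D)
  set C := red2 (infT f h D)
  set α := ∏ R ∈ facs f, (1 + X ^ R.1.natDegree : PowerSeries (ZMod 2))
  set β := (if Odd f.natDegree then ∏ P ∈ facs D, (1 + X ^ P.1.natDegree) else 1 :
    PowerSeries (ZMod 2))
  set γ := (if Even (h.natDegree + D.natDegree) then α else 1 : PowerSeries (ZMod 2))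
  calc A * B * C * (α * (β * γ)) = (A * α) * ((B * β) * (C * γ)) := by ring
    _ = _ := by rw [h1, h2, h3]

open Classical in
/-- the bound -/
theorem order_bound (hq : ((Nat.card k : ℕ) : ZMod 2) = 1) {f h D : Polynomial k}
    (hf : f ≠ 0) (hfh : f.comp h ≠ 0) (hh : h ≠ 0) (hD : D ≠ 0) (a b : ℕ) (G : Polynomial ℤ)
    (hG : LL f h D = (((1 - Polynomial.C (Nat.card k : ℤ) * Polynomial.X) ^ a *
        (1 + Polynomial.C (Nat.card k : ℤ) * Polynomial.X) ^ b * G :
        Polynomial ℤ) : PowerSeries ℤ)) :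
    a + b + (∑ R ∈ facs f, twoPart R.1.natDegree +
        ((if Odd f.natDegree then ∑ P ∈ facs D, twoPart P.1.natDegree else 0) +
          (if Even (h.natDegree + D.natDegree) then
            ∑ R ∈ facs f, twoPart R.1.natDegree else 0))) ≤
      (∑ P ∈ facs (f.comp h) \ facs D, twoPart P.1.natDegree +
        ∑ P ∈ facs D, ∑ R ∈ facs f, Nat.gcd P.1.natDegree R.1.natDegree *
          twoPart (Nat.lcm P.1.natDegree R.1.natDegree)) +
      ((if Odd f.natDegree then 1 else 0) +
        (if Even (h.natDegree + D.natDegree) then 1 else 0)) := by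
  refine le_of_isMu (by rw [Int.cast_natCast]; exact hq) hG ?_ ?_
    (identity_LL hq hf hfh hh hD)
  · refine (isMu_facs f).mul (IsMu.mul ?_ ?_)
    · split_ifs
      · exact isMu_facs D
      · exact IsMu.one
    · split_ifs
      · exact isMu_facs f
      · exact IsMu.one
  · refine IsMu.mul (IsMu.mul ?_ ?_) (IsMu.mul ?_ ?_)
    · exact IsMu.prod _ fun P _ => IsMu.zf (MI.deg_pos P)
    · exact IsMu.prod _ fun P _ => isMu_Psi f (MI.deg_pos P)
    · split_ifs
      · exact IsMu.oneX
      · exact IsMu.one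
    · split_ifs
      · exact IsMu.oneX
      · exact IsMu.one

/-- multiplication by a constant which is not a square -/
theorem chi_scalar (h2 : (2 : k) ≠ 0) {g : k} (hg : ¬ IsSquare g) (P : MI k) (Q : MI (RF P))
    (G : Polynomial (RF P)) :
    chi (Polynomial.C (algebraMap k (RF P) g) * G) Q.1 =
      (-1) ^ (P.1.natDegree * Q.1.natDegree) * chi G Q.1 := by
  classical
  have := finRF P
  have hQf : Fact (Irreducible Q.1) := ⟨Q.2.2⟩
  have h9 : Finite (AdjoinRoot Q.1) := finRF Q
  have := Fintype.ofFinite k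
  have := Fintype.ofFinite (AdjoinRoot Q.1)
  have hg0 : g ≠ 0 := by
    rintro rfl
    exact hg (IsSquare.zero)
  rw [Pool.Agent.TH943.CY.chi_eq Q, Pool.Agent.TH943.CY.chi_eq Q, map_mul, map_mul,
    AdjoinRoot.mk_C]
  have h1 := Pool.Agent.TH943.CY.chi_ext (F := k) (F' := AdjoinRoot Q.1) h2 hg0
  rw [Pool.Agent.TH943.CY.neg_one_of_nonsquare hg, finrank_two] at h1
  rw [← h1]
  rfl

theorem locA_twist (h2 : (2 : k) ≠ 0) {g : k} (hg : ¬ IsSquare g) (D : Polynomial k) :
    locA (Polynomial.C g * D) 1 = rescale (-1 : ℤ) (locA D 1) := by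
  unfold locA
  rw [Pool.Agent.TH943.CY.rescale_eulerProd (finite_d one_pos)]
  congr 1
  funext P
  unfold ptFactor
  rw [Pool.Agent.TH943.CY.chi_const h2 hg, Pool.Agent.TH943.CY.rescale_factor, one_mul]

/-- **the twist by a constant** -/
theorem LL_twist (h2 : (2 : k) ≠ 0) {g : k} (hg : ¬ IsSquare g) (f h D : Polynomial k) :
    LL f h (Polynomial.C g * D) = rescale (-1 : ℤ) (LL f h D) := by
  have hg0 : g ≠ 0 := by
    rintro rfl
    exact hg (IsSquare.zero)
  have hu : IsUnit (Polynomial.C g) := Polynomial.isUnit_C.2 (isUnit_iff_ne_zero.2 hg0)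
  unfold LL
  rw [map_mul, map_mul]
  congr 1
  · congr 1
    · unfold LF
      rw [Pool.Agent.TH943.CY.rescale_eulerProd (Pool.Agent.TH943.CY.plane_finite D)]
      have hiff : ∀ P : MI k, ¬ P.1 ∣ D ↔ ¬ P.1 ∣ Polynomial.C g * D := by
        intro P
        rw [hu.dvd_mul_left]
      let E : (Σ P : {P : MI k // ¬ P.1 ∣ D}, MI (RF P.1)) ≃
          (Σ P : {P : MI k // ¬ P.1 ∣ Polynomial.C g * D}, MI (RF P.1)) :=
        { toFun := fun z => ⟨⟨z.1.1, (hiff _).1 z.1.2⟩, z.2⟩
          invFun := fun z => ⟨⟨z.1.1, (hiff _).2 z.1.2⟩, z.2⟩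
          left_inv := fun _ => rfl
          right_inv := fun _ => rfl }
      rw [Pool.Agent.TH943.CY.eulerProd_comp E]
      congr 1
      funext z
      show ptFactor (tw f h (Polynomial.C g * D) z.1.1) z.1.1.1.natDegree z.2 = _
      unfold ptFactor
      have h3 : tw f h (Polynomial.C g * D) z.1.1 =
          Polynomial.C (algebraMap k (RF z.1.1) g) * tw f h D z.1.1 := by
        unfold tw
        rw [map_mul, AdjoinRoot.mk_C, Polynomial.C_mul, mul_assoc]
        rfl
      rw [h3, chi_scalar h2 hg, Pool.Agent.TH943.CY.rescale_factor]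
    · unfold infX
      split_ifs
      · exact locA_twist h2 hg D
      · rw [map_one]
  · unfold infT
    have hd : (Polynomial.C g * D).natDegree = D.natDegree := Polynomial.natDegree_C_mul hg0
    rw [hd]
    split_ifs
    · rw [← locA_twist h2 hg, ← mul_assoc, ← Polynomial.C_mul, Polynomial.leadingCoeff_mul,
        Polynomial.leadingCoeff_C]
      congr 3
      ring
    · rw [map_one]

/-- the combination of the two orders -/
theorem combine (h2 : (2 : k) ≠ 0) {g : k} (hg : ¬ IsSquare g) (f h D : Polynomial k)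
    (a b : ℕ) (G1 G2 : Polynomial ℤ)
    (h1 : LL f h D = (((1 - Polynomial.C (Nat.card k : ℤ) * Polynomial.X) ^ a * G1 :
        Polynomial ℤ) : PowerSeries ℤ))
    (h' : LL f h (Polynomial.C g * D) =
      (((1 - Polynomial.C (Nat.card k : ℤ) * Polynomial.X) ^ b * G2 :
        Polynomial ℤ) : PowerSeries ℤ)) :
    ∃ G : Polynomial ℤ, LL f h D =
      (((1 - Polynomial.C (Nat.card k : ℤ) * Polynomial.X) ^ a *
        (1 + Polynomial.C (Nat.card k : ℤ) * Polynomial.X) ^ b * G :
        Polynomial ℤ) : PowerSeries ℤ) := by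
  set q : ℤ := (Nat.card k : ℤ) with hq
  rw [LL_twist h2 hg] at h'
  have h3 := congrArg (rescale (-1 : ℤ)) h'
  rw [rescale_rescale, mul_neg, mul_one, neg_neg, rescale_one, RingHom.id_apply] at h3
  have h4 : ∀ F : Polynomial ℤ, rescale (-1 : ℤ) (F : PowerSeries ℤ) =
      ((F.comp (Polynomial.C (-1) * Polynomial.X) : Polynomial ℤ) : PowerSeries ℤ) := by
    intro F
    ext n
    rw [coeff_rescale, Polynomial.coeff_coe, Polynomial.coeff_coe,
      Polynomial.comp_C_mul_X_coeff, mul_comm]
  rw [h4] at h3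
  have h5 : (1 - Polynomial.C q * Polynomial.X) ^ a * G1 =
      ((1 - Polynomial.C q * Polynomial.X) ^ b * G2).comp
        (Polynomial.C (-1) * Polynomial.X) := by
    apply Polynomial.coe_injective
    rw [← h1, ← h3]
  have h6 : ((1 - Polynomial.C q * Polynomial.X) ^ b * G2).comp
        (Polynomial.C (-1) * Polynomial.X) = (1 + Polynomial.C q * Polynomial.X) ^ b *
        G2.comp (Polynomial.C (-1) * Polynomial.X) := by
    rw [Polynomial.mul_comp, Polynomial.pow_comp, Polynomial.sub_comp, Polynomial.one_comp,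
      Polynomial.mul_comp, Polynomial.C_comp, Polynomial.X_comp]
    congr 2
    rw [Polynomial.C_neg, Polynomial.C_1]
    ring
  rw [h6] at h5
  have h7 : (1 - Polynomial.C q * Polynomial.X) ^ a * (1 + Polynomial.C q * Polynomial.X) ^ b ∣
      (1 - Polynomial.C q * Polynomial.X) ^ a * G1 := by
    apply (Pool.Agent.TH943.CY.relPrime q a b).mul_dvd
    · exact dvd_mul_right _ _
    · rw [h5]
      exact dvd_mul_right _ _
  obtain ⟨G, hG⟩ := h7
  exact ⟨G, by rw [h1, hG]⟩

end

end Pool.Agent.TH943.LP
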