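import Pool.Agent.TH943.CY.Glob

/-!
The factors of a polynomial over a finite field in a finite extension, and the Euler product over the
closed points of the affine line over the extension.
-/

set_option autoImplicit false
set_option maxHeartbeats 1000000

open Polynomial

namespace Pool.Agent.TH943.LP

open Pool.Agent.W313.Hyp Pool.Agent.W343.BSD Pool.Agent.TH943.HJ

section

variable {k : Type} [Field k] [Finite k]

omit [Finite k] in
/-- the root of a factor has the right minimal polynomial -/
theorem aeval_root {P R : MI k} (Q : MI (RF P)) (hQ : Q.1 ∣ R.1.map (algebraMap k (RF P))) :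
    aeval (AdjoinRoot.root Q.1 : AdjoinRoot Q.1) R.1 = 0 := by
  rw [← aeval_map_algebraMap (RF P), AdjoinRoot.aeval_eq, AdjoinRoot.mk_eq_zero]
  exact hQ

theorem minpoly_root {P R : MI k} (Q : MI (RF P)) (hQ : Q.1 ∣ R.1.map (algebraMap k (RF P))) :
    minpoly k (AdjoinRoot.root Q.1 : AdjoinRoot Q.1) = R.1 :=
  (minpoly.eq_of_irreducible_of_monic R.2.2 (aeval_root Q hQ) R.2.1).symm

/-- the degrees of the factors -/
theorem deg_fac {P R : MI k} (Q : MI (RF P)) (hQ : Q.1 ∣ R.1.map (algebraMap k (RF P))) :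
    P.1.natDegree * Q.1.natDegree = Nat.lcm P.1.natDegree R.1.natDegree := by
  have hfd := fd2 Q
  have hfin1 : Finite (RF P) := finRF P
  have hfinE : Finite (AdjoinRoot Q.1) := finRF Q
  have := Fintype.ofFinite k
  have := Fintype.ofFinite (RF P)
  rw [← finrank_two Q]
  apply Nat.dvd_antisymm
  · set n := Nat.lcm P.1.natDegree R.1.natDegree with hn
    have h1 : (FiniteField.frobeniusAlgHom k (AdjoinRoot Q.1)) ^ n = 1 := by
      have hφ : ∀ z : AdjoinRoot Q.1, ((FiniteField.frobeniusAlgHom k (AdjoinRoot Q.1)) ^ n) z =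
          z ^ Fintype.card k ^ n := by
        intro z
        rw [AlgHom.coe_pow, FiniteField.coe_frobeniusAlgHom, pow_iterate]
      set φ := (FiniteField.frobeniusAlgHom k (AdjoinRoot Q.1)) ^ n with hφd
      have hc : ∀ c : RF P, φ (algebraMap (RF P) (AdjoinRoot Q.1) c) =
          algebraMap (RF P) (AdjoinRoot Q.1) c := by
        intro c
        rw [hφ, ← map_pow]
        congr 1
        obtain ⟨m, hm⟩ : P.1.natDegree ∣ n := Nat.dvd_lcm_left _ _
        have hcard : Fintype.card (RF P) = Fintype.card k ^ P.1.natDegree := by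
          have := fd1 P
          rw [← finrank_RF P]
          exact Module.card_eq_pow_finrank
        rw [hm, pow_mul, ← hcard]
        exact FiniteField.pow_card_pow m c
      have hr : φ (AdjoinRoot.root Q.1) = AdjoinRoot.root Q.1 := by
        rw [hφ]
        have h2 := (R.2.2.natDegree_dvd_iff_dvd_X_pow_card_pow_sub_X (n := n)).1
          (Nat.dvd_lcm_right _ _)
        obtain ⟨u, hu⟩ := h2
        have h3 := congrArg (aeval (AdjoinRoot.root Q.1 : AdjoinRoot Q.1)) hu
        rw [map_mul, aeval_root Q hQ, zero_mul, map_sub, map_pow, aeval_X, sub_eq_zero,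
          Nat.card_eq_fintype_card] at h3
        exact h3
      apply AlgHom.ext
      intro z
      rw [AlgHom.one_apply]
      obtain ⟨g, rfl⟩ := AdjoinRoot.mk_surjective z
      induction g using Polynomial.induction_on' with
      | add p q hp hq => rw [map_add, map_add, hp, hq]
      | monomial m c =>
        rw [← C_mul_X_pow_eq_monomial, map_mul, map_pow, AdjoinRoot.mk_C, AdjoinRoot.mk_X,
          map_mul, map_pow, hr]
        congr 1
        exact hc c
    have h2 := orderOf_dvd_of_pow_eq_one h1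
    rwa [FiniteField.orderOf_frobeniusAlgHom] at h2
  · apply Nat.lcm_dvd
    · rw [finrank_two Q]
      exact dvd_mul_right _ _
    · rw [← minpoly_root Q hQ]
      exact minpoly.degree_dvd (Algebra.IsIntegral.isIntegral _)

omit [Finite k] in
theorem map_ne {f : k[X]} (hf : f ≠ 0) (P : MI k) : f.map (algebraMap k (RF P)) ≠ 0 :=
  (Polynomial.map_ne_zero_iff (algebraMap k (RF P)).injective).2 hf

/-- the number of the factors -/
theorem card_fac (P R : MI k) :
    (facs (R.1.map (algebraMap k (RF P)))).card = Nat.gcd P.1.natDegree R.1.natDegree := by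
  have hfin1 : Finite (RF P) := finRF P
  have hs : Squarefree (R.1.map (algebraMap k (RF P))) :=
    ((PerfectField.separable_of_irreducible R.2.2).map).squarefree
  have h1 := sum_facs (R.2.1.map (algebraMap k (RF P))) hs
  rw [natDegree_map] at h1
  have h2 : ∑ Q ∈ facs (R.1.map (algebraMap k (RF P))), P.1.natDegree * Q.1.natDegree =
      (facs (R.1.map (algebraMap k (RF P)))).card * Nat.lcm P.1.natDegree R.1.natDegree := by
    rw [Finset.sum_congr rfl (fun Q hQ => deg_fac Q ((mem_facs (map_ne R.2.1.ne_zero P) Q).1 hQ)),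
      Finset.sum_const, smul_eq_mul]
  rw [← Finset.mul_sum, h1, ← Nat.gcd_mul_lcm P.1.natDegree R.1.natDegree] at h2
  exact (Nat.eq_of_mul_eq_mul_right (Nat.lcm_pos (MI.deg_pos P) (MI.deg_pos R)) h2).symm

omit [Finite k] in
/-- a factor over the extension lies over one prime -/
theorem exists_under {P : MI k} (Q : MI (RF P)) :
    ∃ R : MI k, Q.1 ∣ R.1.map (algebraMap k (RF P)) := by
  have hfd := fd2 Q
  have hint : IsIntegral k (AdjoinRoot.root Q.1 : AdjoinRoot Q.1) := Algebra.IsIntegral.isIntegral _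
  refine ⟨⟨minpoly k (AdjoinRoot.root Q.1 : AdjoinRoot Q.1), minpoly.monic hint,
    minpoly.irreducible hint⟩, ?_⟩
  rw [← AdjoinRoot.mk_eq_zero, ← AdjoinRoot.aeval_eq, aeval_map_algebraMap]
  exact minpoly.aeval _ _

theorem under_unique {P : MI k} (Q : MI (RF P)) (R R' : MI k)
    (h : Q.1 ∣ R.1.map (algebraMap k (RF P))) (h' : Q.1 ∣ R'.1.map (algebraMap k (RF P))) :
    R = R' := Subtype.ext ((minpoly_root Q h).symm.trans (minpoly_root Q h'))

theorem under_dvd {P : MI k} {f : k[X]} (Q : MI (RF P)) (R : MI k)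
    (h : Q.1 ∣ R.1.map (algebraMap k (RF P))) (hf : Q.1 ∣ f.map (algebraMap k (RF P))) :
    R.1 ∣ f := by
  rw [← minpoly_root Q h]
  apply minpoly.dvd
  rw [← aeval_map_algebraMap (RF P), AdjoinRoot.aeval_eq, AdjoinRoot.mk_eq_zero]
  exact hf

/-- the factors of a polynomial over the extension -/
theorem prod_facs_map {M : Type} [CommMonoid M] {f : k[X]} (hf : f ≠ 0) (P : MI k) (φ : ℕ → M) :
    ∏ Q ∈ facs (f.map (algebraMap k (RF P))), φ (P.1.natDegree * Q.1.natDegree) =
      ∏ R ∈ facs f, φ (Nat.lcm P.1.natDegree R.1.natDegree) ^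
        (Nat.gcd P.1.natDegree R.1.natDegree) := by
  classical
  have hfin1 : Finite (RF P) := finRF P
  have h1 : facs (f.map (algebraMap k (RF P))) =
      (facs f).biUnion fun R => facs (R.1.map (algebraMap k (RF P))) := by
    ext Q
    rw [mem_facs (map_ne hf P), Finset.mem_biUnion]
    constructor
    · intro h
      obtain ⟨R, hR⟩ := exists_under Q
      exact ⟨R, (mem_facs hf R).2 (under_dvd Q R hR h), (mem_facs (map_ne R.2.1.ne_zero P) Q).2 hR⟩
    · rintro ⟨R, hR, hQ⟩
      rw [mem_facs hf] at hR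
      rw [mem_facs (map_ne R.2.1.ne_zero P)] at hQ
      exact hQ.trans (Polynomial.map_dvd _ hR)
  rw [h1, Finset.prod_biUnion]
  · refine Finset.prod_congr rfl fun R _ => ?_
    rw [← card_fac P R, ← Finset.prod_const]
    refine Finset.prod_congr rfl fun Q hQ => ?_
    rw [deg_fac Q ((mem_facs (map_ne R.2.1.ne_zero P) Q).1 hQ)]
  · intro R _ R' _ hne
    rw [Function.onFun, Finset.disjoint_left]
    intro Q hQ hQ'
    rw [mem_facs (map_ne R.2.1.ne_zero P)] at hQ
    rw [mem_facs (map_ne R'.2.1.ne_zero P)] at hQ'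
    exact hne (under_unique Q R R' hQ hQ')

/-- the Euler product over the affine line over the residue field of `R` -/
theorem eulerProd_const (hq : ((Nat.card k : ℕ) : ZMod 2) = 1) (R : MI k) :
    eulerProd (fun P : MI k => P.1.natDegree) (fun P =>
      (1 + PowerSeries.X ^ Nat.lcm P.1.natDegree R.1.natDegree : PowerSeries (ZMod 2)) ^
        (Nat.gcd P.1.natDegree R.1.natDegree)) = 1 + PowerSeries.X ^ R.1.natDegree := by
  have hfin1 : Finite (RF R) := finRF R
  have h1 : (fun P : MI k =>
      (1 + PowerSeries.X ^ Nat.lcm P.1.natDegree R.1.natDegree : PowerSeries (ZMod 2)) ^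
        (Nat.gcd P.1.natDegree R.1.natDegree)) =
      fun P : MI k => ∏ Q ∈ facs (P.1.map (algebraMap k (RF R))),
        (1 + PowerSeries.X ^ (R.1.natDegree * Q.1.natDegree) : PowerSeries (ZMod 2)) := by
    funext P
    rw [Nat.gcd_comm, ← card_fac R P, ← Finset.prod_const]
    refine Finset.prod_congr rfl fun Q hQ => ?_
    rw [deg_fac Q ((mem_facs (map_ne P.2.1.ne_zero R) Q).1 hQ), Nat.lcm_comm]
  rw [h1, eulerProd_fiber (d' := fun Q : MI (RF R) => R.1.natDegree * Q.1.natDegree)
    (fun n => finite_deg_le (F := k) n) (finite_d (MI.deg_pos R))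
    (f' := fun Q => 1 + PowerSeries.X ^ (R.1.natDegree * Q.1.natDegree))
    (fun Q => dvd_one_add le_rfl) (fun P => facs (P.1.map (algebraMap k (RF R))))
    (fun Q => by
      obtain ⟨P, hP⟩ := exists_under Q
      exact ⟨P, (mem_facs (map_ne P.2.1.ne_zero R) Q).2 hP⟩)
    (fun P P' Q h h' => under_unique Q P P' ((mem_facs (map_ne P.2.1.ne_zero R) Q).1 h)
      ((mem_facs (map_ne P'.2.1.ne_zero R) Q).1 h'))
    (fun P Q hQ => by
      rw [deg_fac Q ((mem_facs (map_ne P.2.1.ne_zero R) Q).1 hQ)]
      exact Nat.le_of_dvd (Nat.lcm_pos (MI.deg_pos R) (MI.deg_pos P)) (Nat.dvd_lcm_right _ _))]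
  have h2 := locA_mod (F := RF R) (card_RF' hq R) (h := 1) one_ne_zero (MI.deg_pos R)
  have h3 : facs (1 : (RF R)[X]) = ∅ := by
    rw [Finset.eq_empty_iff_forall_notMem]
    intro Q hQ
    rw [mem_facs one_ne_zero] at hQ
    exact Q.2.2.not_isUnit (isUnit_of_dvd_one hQ)
  rw [h3, Finset.prod_empty, mul_one] at h2
  rw [← h2]
  unfold locA
  rw [map_eulerProd (finite_d (MI.deg_pos R))]
  congr 1
  funext Q
  rw [red2_ptFactor (fun h => Q.2.2.not_isUnit (isUnit_of_dvd_one h))]

end

end Pool.Agent.TH943.LP
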