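import Pool.Agent.TH943.LP.Fac
import Pool.Agent.TH943.CY.Tw

/-!
The identity modulo two for the `L`-function of the Jacobian of `D(t) y ^ 2 = (x - h(t)) f(x)`.
-/

set_option autoImplicit false
set_option maxHeartbeats 1000000

open PowerSeries

namespace Pool.Agent.TH943.LP

open Pool.Agent.W313.Hyp Pool.Agent.W343.BSD Pool.Agent.TH943.HJ

section

variable {k : Type} [Field k]

/-- The polynomial `D(t) (x - h(t)) f(x)` over the residue field at `P`. -/
noncomputable def tw (f h D : Polynomial k) (P : MI k) : Polynomial (RF P) :=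
  Polynomial.C (AdjoinRoot.mk P.1 D) *
    ((Polynomial.X - Polynomial.C (AdjoinRoot.mk P.1 h)) * f.map (algebraMap k (RF P)))

/-- The part of the `L`-function of the closed points of the affine plane with `D(t) ≠ 0`. -/
noncomputable def LF (f h D : Polynomial k) : PowerSeries ℤ :=
  eulerProd (fun z : (Σ P : {P : MI k // ¬ P.1 ∣ D}, MI (RF P.1)) =>
      z.1.1.1.natDegree * z.2.1.natDegree)
    (fun z => ptFactor (tw f h D z.1.1) z.1.1.1.natDegree z.2)

/-- The point `x = h` of a fibre. -/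
noncomputable def hpt (h : Polynomial k) (P : MI k) : MI (RF P) :=
  ⟨Polynomial.X - Polynomial.C (AdjoinRoot.mk P.1 h), Polynomial.monic_X_sub_C _,
    Polynomial.irreducible_X_sub_C _⟩

theorem hpt_deg (h : Polynomial k) (P : MI k) : (hpt h P).1.natDegree = 1 :=
  Polynomial.natDegree_X_sub_C _

theorem tw_ne {f h D : Polynomial k} (hf : f ≠ 0) {P : MI k} (hP : ¬ P.1 ∣ D) :
    tw f h D P ≠ 0 := by
  refine mul_ne_zero ?_ (mul_ne_zero (Polynomial.X_sub_C_ne_zero _) (map_ne hf P))
  rw [Ne, Polynomial.C_eq_zero, AdjoinRoot.mk_eq_zero]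
  exact hP

theorem dvd_tw {f h D : Polynomial k} {P : MI k} (hP : ¬ P.1 ∣ D) (Q : MI (RF P)) :
    Q.1 ∣ tw f h D P ↔ Q.1 ∣ (hpt h P).1 ∨ Q.1 ∣ f.map (algebraMap k (RF P)) := by
  unfold tw
  have h0 : AdjoinRoot.mk P.1 D ≠ 0 := by
    rw [Ne, AdjoinRoot.mk_eq_zero]
    exact hP
  have hu : IsUnit (Polynomial.C (AdjoinRoot.mk P.1 D)) :=
    Polynomial.isUnit_C.2 (isUnit_iff_ne_zero.2 h0)
  rw [hu.dvd_mul_left]
  exact Q.2.2.prime.dvd_mul

theorem hpt_dvd {f h : Polynomial k} {P : MI k} :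
    (hpt h P).1 ∣ f.map (algebraMap k (RF P)) ↔ P.1 ∣ f.comp h := by
  show (Polynomial.X - Polynomial.C (AdjoinRoot.mk P.1 h)) ∣ _ ↔ _
  rw [Polynomial.dvd_iff_isRoot, Polynomial.IsRoot, Polynomial.eval_map_algebraMap,
    ← AdjoinRoot.mk_eq_zero]
  have h1 : Polynomial.aeval (AdjoinRoot.mk P.1 h) f = AdjoinRoot.mk P.1 (f.comp h) := by
    rw [← AdjoinRoot.aeval_eq, ← AdjoinRoot.aeval_eq, Polynomial.aeval_comp]
  rw [h1]

variable [Finite k]

open Classical in
theorem facs_tw {f h D : Polynomial k} (hf : f ≠ 0) {P : MI k}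
    (hP : ¬ P.1 ∣ D) : facs (tw f h D P) =
      insert (hpt h P) (facs (f.map (algebraMap k (RF P)))) := by
  have := finRF P
  ext Q
  rw [mem_facs (tw_ne hf hP), dvd_tw hP, Finset.mem_insert, mem_facs (map_ne hf P)]
  refine or_congr_left ?_
  constructor
  · intro h
    exact eq_of_dvd_MI h
  · rintro rfl
    exact dvd_rfl

theorem LF_eq (f h D : Polynomial k) [DecidablePred fun P : MI k => ¬ P.1 ∣ D] :
    LF f h D = eulerProd (fun P : MI k => P.1.natDegree)
      (fun P => if ¬ P.1 ∣ D then locA (tw f h D P) P.1.natDegree else 1) := by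
  have hfin : ∀ P : MI k, Finite (RF P) := finRF
  unfold LF
  rw [eulerProd_sigma (ι := {P : MI k // ¬ P.1 ∣ D}) (κ := fun P => MI (RF P.1))
    (d := fun P => P.1.1.natDegree) (e := fun P Q => Q.1.natDegree)
    (fun n => Set.Finite.of_finite_image (f := fun i : {P : MI k // ¬ P.1 ∣ D} => i.1)
      ((finite_deg_le (F := k) n).subset (by rintro _ ⟨i, hi, rfl⟩; exact hi))
      (Set.injOn_of_injective Subtype.val_injective))
    (fun P => MI.deg_pos P.1) (fun P n => finite_deg_le n) (fun P Q => MI.deg_pos Q) _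
    (fun p => ptFactor_dvd _ _ _)]
  exact eulerProd_subtype (fun P : MI k => ¬ P.1 ∣ D) (d := fun P => P.1.natDegree)
    (fun n => finite_deg_le (F := k) n) (f := fun P => locA (tw f h D P) P.1.natDegree)
    (fun P _ => locA_dvd (tw f h D P) (MI.deg_pos P))

/-- the contribution of the roots of `f` over the residue field of degree `n` -/
noncomputable def Psi (f : Polynomial k) (n : ℕ) : PowerSeries (ZMod 2) :=
  ∏ R ∈ facs f, (1 + X ^ Nat.lcm n R.1.natDegree) ^ (Nat.gcd n R.1.natDegree)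

omit [Finite k] in
theorem Psi_dvd (f : Polynomial k) {n : ℕ} (hn : 0 < n) :
    (X : PowerSeries (ZMod 2)) ^ n ∣ Psi f n - 1 := by
  have h := prod_congr_mod (facs f)
    (fun R => ((1 + X ^ Nat.lcm n R.1.natDegree) ^ (Nat.gcd n R.1.natDegree) :
      PowerSeries (ZMod 2))) (fun _ => 1) n (fun R _ => by
        have h1 : (X : PowerSeries (ZMod 2)) ^ n ∣ (1 + X ^ Nat.lcm n R.1.natDegree) - 1 :=
          dvd_one_add (Nat.le_of_dvd (Nat.lcm_pos hn (MI.deg_pos R)) (Nat.dvd_lcm_left _ _))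
        exact h1.trans (sub_one_dvd_pow_sub_one _ _))
  rwa [Finset.prod_const_one] at h

theorem eulerProd_Psi (hq : ((Nat.card k : ℕ) : ZMod 2) = 1) (f : Polynomial k) :
    eulerProd (fun P : MI k => P.1.natDegree) (fun P => Psi f P.1.natDegree) =
      ∏ R ∈ facs f, (1 + X ^ R.1.natDegree) := by
  unfold Psi
  rw [eulerProd_prod (fun n => finite_deg_le (F := k) n) (facs f) _ (fun R P => ?_)]
  · exact Finset.prod_congr rfl fun R _ => eulerProd_const hq R
  · have h1 : (X : PowerSeries (ZMod 2)) ^ P.1.natDegree ∣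
        (1 + X ^ Nat.lcm P.1.natDegree R.1.natDegree) - 1 :=
      dvd_one_add (Nat.le_of_dvd (Nat.lcm_pos (MI.deg_pos P) (MI.deg_pos R))
        (Nat.dvd_lcm_left _ _))
    exact h1.trans (sub_one_dvd_pow_sub_one _ _)

open Classical in
/-- the identity modulo two -/
theorem identity (hq : ((Nat.card k : ℕ) : ZMod 2) = 1) {f h D : Polynomial k}
    (hf : f ≠ 0) (hfh : f.comp h ≠ 0) (hD : D ≠ 0) :
    red2 (LF f h D) * ∏ R ∈ facs f, (1 + X ^ R.1.natDegree) =
      (∏ P ∈ facs (f.comp h) \ facs D, (1 + X ^ P.1.natDegree)) *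
        ∏ P ∈ facs D, Psi f P.1.natDegree := by
  have hfin : ∀ P : MI k, Finite (RF P) := finRF
  have hfd := fun n => finite_deg_le (F := k) n
  set W : MI k → PowerSeries (ZMod 2) :=
    fun P => red2 (if ¬ P.1 ∣ D then locA (tw f h D P) P.1.natDegree else 1) with hW
  have hΦ1 : ∀ P : MI k, (X : PowerSeries (ZMod 2)) ^ P.1.natDegree ∣ Psi f P.1.natDegree - 1 :=
    fun P => Psi_dvd f (MI.deg_pos P)
  have hloc : ∀ P : MI k, (X : PowerSeries ℤ) ^ P.1.natDegree ∣
      (if ¬ P.1 ∣ D then locA (tw f h D P) P.1.natDegree else 1) - 1 := by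
    intro P
    split_ifs with hv
    · rw [sub_self]; exact dvd_zero _
    · exact locA_dvd (tw f h D P) (MI.deg_pos P)
  have hW1 : ∀ P : MI k, (X : PowerSeries (ZMod 2)) ^ P.1.natDegree ∣ W P - 1 := by
    intro P
    have h3 := map_dvd red2 (hloc P)
    rwa [map_sub, map_one, map_pow, PowerSeries.map_X] at h3
  have hWS : ∀ P ∈ facs D, W P = 1 := by
    intro P hP
    rw [mem_facs hD] at hP
    show red2 (if ¬ P.1 ∣ D then locA (tw f h D P) P.1.natDegree else 1) = 1
    rw [if_neg (not_not.2 hP), map_one]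
  -- the local computation
  have hlocal : ∀ P, P ∉ facs D → Psi f P.1.natDegree * W P =
      if P ∈ facs (f.comp h) then 1 + X ^ P.1.natDegree else 1 := by
    intro P hP
    rw [mem_facs hD] at hP
    have h1 := locA_mod (card_RF' hq P) (tw_ne (h := h) hf hP) (MI.deg_pos P)
    have h2 : W P = red2 (locA (tw f h D P) P.1.natDegree) := by
      show red2 (if ¬ P.1 ∣ D then locA (tw f h D P) P.1.natDegree else 1) = _
      rw [if_pos hP]
    have h3 : Psi f P.1.natDegree = ∏ Q ∈ facs (f.map (algebraMap k (RF P))),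
        (1 + X ^ (P.1.natDegree * Q.1.natDegree) : PowerSeries (ZMod 2)) :=
      (prod_facs_map hf P (fun n => (1 + X ^ n : PowerSeries (ZMod 2)))).symm
    rw [facs_tw hf hP, ← h2] at h1
    rw [h3]
    split_ifs with hPe
    · rw [mem_facs hfh] at hPe
      have h4 : hpt h P ∈ facs (f.map (algebraMap k (RF P))) :=
        (mem_facs (map_ne hf P) _).2 (hpt_dvd.2 hPe)
      rw [Finset.insert_eq_of_mem h4] at h1
      rw [mul_comm, h1]
    · rw [mem_facs hfh] at hPe
      have h4 : hpt h P ∉ facs (f.map (algebraMap k (RF P))) := fun h' =>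
        hPe (hpt_dvd.1 ((mem_facs (map_ne hf P) _).1 h'))
      rw [Finset.prod_insert h4, hpt_deg, mul_one] at h1
      apply mul_left_cancel₀ (Pool.Agent.TH943.CY.mod_pow_ne_zero (MI.deg_pos P))
      rw [mul_one]
      linear_combination h1
  have hLS : red2 (LF f h D) = eulerProd (fun P : MI k => P.1.natDegree) W := by
    rw [LF_eq f h D, map_eulerProd hfd]
  have key := fin_factor (F := fun P => Psi f P.1.natDegree * W P)
    (W := fun _ => (1 : PowerSeries (ZMod 2))) hfd
    (fun P => one_mod_mul (hΦ1 P) (hW1 P)) (fun P => by rw [sub_self]; exact dvd_zero _)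
    ((facs (f.comp h) \ facs D) ∪ facs D) (fun P hP => by
      rw [Finset.mem_union, Finset.mem_sdiff, not_or, not_and] at hP
      rw [hlocal P hP.2, if_neg (fun h' => hP.1 h' hP.2)])
  rw [Finset.prod_const_one, mul_one] at key
  have hone : eulerProd (fun P : MI k => P.1.natDegree)
      (fun _ => (1 : PowerSeries (ZMod 2))) = 1 := eulerProd_one
  rw [hone, one_mul, eulerProd_mul hfd hΦ1 hW1, eulerProd_Psi hq f, ← hLS] at key
  rw [mul_comm, key, Finset.prod_union Finset.sdiff_disjoint]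
  congr 1
  · refine Finset.prod_congr rfl fun P hP => ?_
    rw [Finset.mem_sdiff] at hP
    rw [hlocal P hP.2, if_pos hP.1]
  · refine Finset.prod_congr rfl fun P hP => ?_
    rw [hWS P hP, mul_one]

end

end Pool.Agent.TH943.LP
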