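import Pool.Agent.TH943.LP.Ord

/-!
The bounds for the twists of the pencil `y ^ 2 = (x - t) f(x)`.
-/

set_option autoImplicit false
set_option maxHeartbeats 1000000

open Polynomial

namespace Pool.Agent.TH943.LP

open Pool.Agent.W313.Hyp Pool.Agent.W343.BSD Pool.Agent.TH943.HJ

section

variable {k : Type} [Field k] [Finite k]

theorem twoPart_lcm_odd {n m : ℕ} (hn : 0 < n) (hm : Odd m) :
    twoPart (Nat.lcm n m) = twoPart n := by
  obtain ⟨c, hc⟩ : n ∣ Nat.lcm n m := Nat.dvd_lcm_left n m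
  have hc0 : 0 < c := by
    rcases Nat.eq_zero_or_pos c with h | h
    · rw [h, mul_zero] at hc
      exact absurd hc (Nat.lcm_pos hn hm.pos).ne'
    · exact h
  have hco : Odd c := by
    have h1 : Nat.gcd n m * Nat.lcm n m = n * m := Nat.gcd_mul_lcm n m
    rw [hc] at h1
    have h2 : Nat.gcd n m * c = m := by
      apply Nat.eq_of_mul_eq_mul_left hn
      rw [← h1]; ring
    rw [← h2] at hm
    exact Nat.Odd.of_mul_right hm
  rw [hc, twoPart_mul hn hc0, twoPart_odd hco, mul_one]

open Classical in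
/-- the bound if `f` is irreducible of odd degree -/
theorem bound_irreducible (h2 : (2 : k) ≠ 0) {f D : k[X]} (hm : f.Monic) (hf : Irreducible f)
    (ho : Odd f.natDegree) (hD : D ≠ 0) (a b : ℕ) (G : ℤ[X])
    (hG : LL f X D = (((1 - C (Nat.card k : ℤ) * X) ^ a *
        (1 + C (Nat.card k : ℤ) * X) ^ b * G : ℤ[X]) : PowerSeries ℤ)) :
    a + b ≤ 1 + ∑ P ∈ primes D,
      (Nat.gcd P.natDegree f.natDegree - 1) * twoPart P.natDegree := by
  have h1 := order_bound (card_odd h2) hf.ne_zero (by rw [comp_X]; exact hf.ne_zero) X_ne_zero hD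
    a b G hG
  rw [comp_X, if_pos ho, if_pos ho] at h1
  have hfacs : facs f = {⟨f, hm, hf⟩} := by
    ext R
    rw [mem_facs hf.ne_zero, Finset.mem_singleton]
    constructor
    · intro h
      exact Subtype.ext (eq_of_monic_of_associated R.2.1 hm (R.2.2.associated_of_dvd hf h))
    · rintro rfl
      exact dvd_rfl
  have h3 : ∑ P ∈ facs f \ facs D, twoPart P.1.natDegree ≤ 1 := by
    refine (Finset.sum_le_sum_of_subset Finset.sdiff_subset).trans ?_
    rw [hfacs, Finset.sum_singleton]
    exact (twoPart_odd ho).le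
  rw [hfacs] at h1
  simp only [Finset.sum_singleton] at h1
  rw [twoPart_odd ho, ← hfacs] at h1
  have h4 : ∑ P ∈ facs D, Nat.gcd P.1.natDegree f.natDegree *
      twoPart (Nat.lcm P.1.natDegree f.natDegree) =
      ∑ P ∈ facs D, twoPart P.1.natDegree + ∑ P ∈ facs D,
        (Nat.gcd P.1.natDegree f.natDegree - 1) * twoPart P.1.natDegree := by
    rw [← Finset.sum_add_distrib]
    refine Finset.sum_congr rfl fun P _ => ?_
    rw [twoPart_lcm_odd (MI.deg_pos P) ho]
    have h5 : 0 < Nat.gcd P.1.natDegree f.natDegree := Nat.gcd_pos_of_pos_right _ ho.pos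
    obtain ⟨e, he⟩ : ∃ e, Nat.gcd P.1.natDegree f.natDegree = e + 1 :=
      ⟨Nat.gcd P.1.natDegree f.natDegree - 1, by omega⟩
    rw [he, Nat.add_sub_cancel]
    ring
  have h6 : ∑ P ∈ facs D, (Nat.gcd P.1.natDegree f.natDegree - 1) * twoPart P.1.natDegree =
      ∑ P ∈ primes D, (Nat.gcd P.natDegree f.natDegree - 1) * twoPart P.natDegree :=
    sum_primes hD (fun P => (Nat.gcd P.natDegree f.natDegree - 1) * twoPart P.natDegree)
  rw [h4, h6] at h1
  split_ifs at h1 <;> omega

open Classical in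
/-- the bound for a prime of odd degree prime to the degrees of the factors of `f` -/
theorem bound_prime (h2 : (2 : k) ≠ 0) {f : k[X]} (hf : f ≠ 0) {P : k[X]} (hPm : P.Monic)
    (hP : Irreducible P) (hPo : Odd P.natDegree)
    (hcop : ∀ R : k[X], Irreducible R → R ∣ f → Nat.Coprime P.natDegree R.natDegree)
    {c : k} (hc : c ≠ 0) (a b : ℕ) (G : ℤ[X])
    (hG : LL f X (C c * P) = (((1 - C (Nat.card k : ℤ) * X) ^ a *
        (1 + C (Nat.card k : ℤ) * X) ^ b * G : ℤ[X]) : PowerSeries ℤ)) :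
    a + b ≤ 1 := by
  have hD : C c * P ≠ 0 := mul_ne_zero (C_ne_zero.2 hc) hP.ne_zero
  have h1 := order_bound (card_odd h2) hf (by rw [comp_X]; exact hf) X_ne_zero hD
    a b G hG
  have hd : (C c * P).natDegree = P.natDegree := natDegree_C_mul hc
  have hev : Even ((X : k[X]).natDegree + (C c * P).natDegree) := by
    rw [natDegree_X, hd, add_comm]
    exact hPo.add_one
  have hfacs : facs (C c * P) = {⟨P, hPm, hP⟩} := by
    rw [facs_unit hP.ne_zero hc]
    ext R
    rw [mem_facs hP.ne_zero, Finset.mem_singleton]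
    constructor
    · intro h
      exact Subtype.ext (eq_of_monic_of_associated R.2.1 hPm (R.2.2.associated_of_dvd hP h))
    · rintro rfl
      exact dvd_rfl
  rw [comp_X, if_pos hev, if_pos hev, hfacs, Finset.sum_singleton, Finset.sum_singleton,
    twoPart_odd hPo] at h1
  have h3 : ∑ R ∈ facs f \ {⟨P, hPm, hP⟩}, twoPart R.1.natDegree ≤
      ∑ R ∈ facs f, twoPart R.1.natDegree := Finset.sum_le_sum_of_subset Finset.sdiff_subset
  have h4 : ∑ R ∈ facs f, Nat.gcd P.natDegree R.1.natDegree *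
      twoPart (Nat.lcm P.natDegree R.1.natDegree) = ∑ R ∈ facs f, twoPart R.1.natDegree := by
    refine Finset.sum_congr rfl fun R hR => ?_
    rw [mem_facs hf] at hR
    have h5 := hcop R.1 R.2.2 hR
    rw [Nat.lcm_comm, twoPart_lcm_odd (MI.deg_pos R) hPo, h5.gcd_eq_one, one_mul]
  rw [h4] at h1
  split_ifs at h1 <;> omega

end

end Pool.Agent.TH943.LP
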